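import Mathlib
import Pool.Agent.Y876.FF.Fin

/-! The exact sets of prime forms in families with `45` admissible forms (starting files, helper826 and
helper876). -/

set_option autoImplicit false
open Finset Filter

namespace Pool.Agent.H35_PR

theorem tr45 : ∃ C : ℕ, ∀ {ι : Type} [Fintype ι] (a b : ι → ℤ)
    (_ : ∀ i, 0 < a i) (_ : ∀ i j, i ≠ j → a i * b j ≠ a j * b i) (S : Finset ι) (_ : 45 ≤ S.card)
    (_ : ∀ p : ℕ, p.Prime → ∃ n : ℕ, ∀ i ∈ S, ¬ (p : ℤ) ∣ a i * n + b i),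
    ∀ᶠ x : ℝ in atTop, ∃ T : Finset ι, T ⊆ S ∧ 2 ≤ T.card ∧
      x / Real.log x ^ C ≤ (Set.ncard {n : ℕ | (n : ℝ) ≤ x ∧
        ∀ i, (a i * (n : ℤ) + b i).natAbs.Prime ↔ i ∈ T} : ℝ) :=
  ⟨Pool.Agent.Y876.FF.CC 45 + 3, fun a b ha hne S hS hloc =>
    Pool.Agent.Y876.FF.trace_int Pool.Agent.Y876.FF.lh45 a b ha hne S hS hloc⟩

end Pool.Agent.H35_PR
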