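import Mathlib
import Pool.Agent.H35_PR.Tr45

/-! Every even number is a gap between consecutive primes, or any 23 integers contain two whose ratio is
a quotient of shifted primes. -/

set_option autoImplicit false

namespace Pool.Agent.H35_PR

open Finset Filter Topology

/-- the number of the primes `p ≤ x` such that `p + 2 g` is the next prime -/
noncomputable def gapCount (g : ℕ) (x : ℝ) : ℕ :=
  {p : ℕ | (p : ℝ) ≤ x ∧ p.Prime ∧ (p + 2 * g).Prime ∧ ∀ m, p < m → m < p + 2 * g → ¬ m.Prime}.ncard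

/-- the number of the `n ≤ x` such that `a n + e g` and `b n + e' g` are both primes -/
noncomputable def ratioCount (g a b : ℕ) (e e' : ℤ) (x : ℝ) : ℕ :=
  {n : ℕ | (n : ℝ) ≤ x ∧ ((a : ℤ) * n + e * g).toNat.Prime ∧ ((b : ℤ) * n + e' * g).toNat.Prime}.ncard

/-- comparison of bounds -/
theorem cmp (A C U : ℕ) (hA : 1 ≤ A) : ∀ᶠ x : ℝ in atTop,
    (A * x) / (Real.log (A * x)) ^ (C + 1) ≤ x / (Real.log x) ^ C - U := by
  have h1 : ∀ᶠ x : ℝ in atTop, 2 * (A : ℝ) ≤ Real.log x :=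
    Real.tendsto_log_atTop.eventually_ge_atTop _
  have h2 : ∀ᶠ x : ℝ in atTop, 2 * (U : ℝ) ≤ x / (Real.log x) ^ C := by
    have h3 : Tendsto (fun x : ℝ => x / (Real.log x) ^ C) atTop atTop := by
      have h4 := (Real.isLittleO_pow_log_id_atTop (n := C))
      have h5 : Tendsto (fun x : ℝ => (Real.log x) ^ C / x) atTop (𝓝 0) :=
        h4.tendsto_div_nhds_zero
      have h6 : ∀ᶠ x : ℝ in atTop, 0 < (Real.log x) ^ C / x := by
        filter_upwards [eventually_gt_atTop 1] with x hx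
        have := Real.log_pos hx
        positivity
      have h7 : Tendsto (fun x : ℝ => (Real.log x) ^ C / x) atTop (𝓝[>] 0) :=
        tendsto_nhdsWithin_iff.2 ⟨h5, h6⟩
      have h8 := h7.inv_tendsto_nhdsGT_zero
      refine h8.congr fun x => ?_
      simp only [Pi.inv_apply, inv_div]
    exact h3.eventually_ge_atTop _
  filter_upwards [h1, h2, eventually_ge_atTop 3] with x hN1 hN2 hN3
  have hA2 : (1 : ℝ) ≤ A := by exact_mod_cast hA
  have hlog : 0 < Real.log x := by linarith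
  have hNpos : (0 : ℝ) < x := by linarith
  have hlog2 : Real.log x ≤ Real.log (A * x) := by
    apply Real.log_le_log hNpos
    nlinarith
  have h3 : (A * x) / (Real.log (A * x)) ^ (C + 1) ≤ (A * x) / (Real.log x) ^ (C + 1) := by
    apply div_le_div_of_nonneg_left (by positivity) (by positivity)
    exact pow_le_pow_left₀ hlog.le hlog2 _
  have h4 : (A * x) / (Real.log x) ^ (C + 1) ≤ x / (Real.log x) ^ C / 2 := by
    rw [div_div, div_le_div_iff₀ (by positivity) (by positivity)]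
    have h5 : (Real.log x) ^ (C + 1) = (Real.log x) ^ C * Real.log x := pow_succ _ _
    rw [h5]
    have h6 : 0 < (Real.log x) ^ C := by positivity
    have h7 : A * x * ((Real.log x) ^ C * 2) = (x * (Real.log x) ^ C) * (2 * A) := by ring
    have h8 : x * ((Real.log x) ^ C * Real.log x) = (x * (Real.log x) ^ C) * Real.log x := by ring
    rw [h7, h8]
    exact mul_le_mul_of_nonneg_left hN1 (by positivity)
  linarith

/-- removing the small numbers -/
theorem drop_small (A : Set ℕ) (U : ℕ) (x : ℝ) (hA : ∀ n ∈ A, (n : ℝ) ≤ x) :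
    (A.ncard : ℝ) - (U + 1 : ℕ) ≤ ({n : ℕ | n ∈ A ∧ U < n}.ncard : ℝ) := by
  have hfin : A.Finite := (Set.finite_Iic ⌊x⌋₊).subset fun n hn => Nat.le_floor (hA n hn)
  have h1 : A ⊆ {n : ℕ | n ∈ A ∧ U < n} ∪ Set.Iic U := by
    intro n hn
    rcases le_or_gt n U with h | h
    · right; exact h
    · left; exact ⟨hn, h⟩
  have h2 : A.ncard ≤ {n : ℕ | n ∈ A ∧ U < n}.ncard + (Set.Iic U).ncard :=
    (Set.ncard_le_ncard h1 ((hfin.subset fun n hn => hn.1).union (Set.finite_Iic U))).trans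
      (Set.ncard_union_le _ _)
  have h3 : (Set.Iic U).ncard = U + 1 := by
    rw [← Finset.coe_Iic, Set.ncard_coe_finset, Nat.card_Iic]
  rw [h3] at h2
  have h4 : (A.ncard : ℝ) ≤ ({n : ℕ | n ∈ A ∧ U < n}.ncard : ℝ) + (U + 1 : ℕ) := by
    exact_mod_cast h2
  linarith

theorem prim_eq {a a' t t' : ℤ} (ha : 0 < a) (ha' : 0 < a') (h : IsCoprime a t) (h' : IsCoprime a' t')
    (he : a * t' = a' * t) : a = a' ∧ t = t' := by
  have h1 : a ∣ a' := h.dvd_of_dvd_mul_right (by rw [← he]; exact dvd_mul_right _ _)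
  have h2 : a' ∣ a := h'.dvd_of_dvd_mul_right (by rw [he]; exact dvd_mul_right _ _)
  have h3 : a = a' := Int.dvd_antisymm ha.le ha'.le h1 h2
  subst h3
  exact ⟨rfl, (mul_left_cancel₀ ha.ne' he).symm⟩

theorem pos_form {a n t g : ℤ} (h1 : 1 ≤ a) (h2 : -g ≤ t) (h3 : g + 1 ≤ n) (hg : 0 ≤ g) :
    0 ≤ a * n + t := by nlinarith

theorem toNat_eq {z : ℤ} (h : 0 ≤ z) : z.toNat = z.natAbs := by omega

theorem lt_mul' {a n k : ℕ} (h : 1 ≤ a) (h2 : k < n) : k < a * n :=
  lt_of_lt_of_le h2 (Nat.le_mul_of_pos_left n h)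

theorem le_real {a A n g : ℕ} {x : ℝ} (haA : a ≤ A) (hn : (n : ℝ) ≤ x) :
    ((a * n - g : ℕ) : ℝ) ≤ A * x := by
  have h3 : ((a * n - g : ℕ) : ℝ) ≤ (a : ℝ) * n := by
    have : a * n - g ≤ a * n := Nat.sub_le _ _
    exact_mod_cast this
  have h4 : (a : ℝ) ≤ A := by exact_mod_cast haA
  have h5 : (0 : ℝ) ≤ n := by positivity
  exact h3.trans (mul_le_mul h4 hn h5 (by positivity))

theorem gap_of {a g A n : ℕ} (ha1 : 1 ≤ a) (haA : a ≤ A) (hn3 : g + A + 1 < n)
    (h1 : ((a : ℤ) * n + -(g : ℤ)).natAbs.Prime) (h2 : ((a : ℤ) * n + (g : ℤ)).natAbs.Prime)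
    (h3 : ∀ t : ℤ, -(g : ℤ) < t → t < g → IsCoprime (a : ℤ) t → ¬ ((a : ℤ) * n + t).natAbs.Prime) :
    (a * n - g).Prime ∧ (a * n - g + 2 * g).Prime ∧
      ∀ m, a * n - g < m → m < a * n - g + 2 * g → ¬ m.Prime := by
  have hin : g + A + 1 < a * n := lt_mul' ha1 hn3
  obtain ⟨Q, hQ⟩ : ∃ Q : ℕ, Q = a * n := ⟨_, rfl⟩
  have hQz : (Q : ℤ) = (a : ℤ) * n := by rw [hQ]; push_cast; ring
  rw [← hQ] at hin ⊢
  rw [← hQz] at h1 h2
  refine ⟨?_, ?_, ?_⟩
  · have h4 : Q - g = ((Q : ℤ) + -(g : ℤ)).natAbs := by omega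
    rw [h4]; exact h1
  · have h4 : Q - g + 2 * g = ((Q : ℤ) + (g : ℤ)).natAbs := by omega
    rw [h4]; exact h2
  · intro m hm1 hm2 hmp
    obtain ⟨t, ht⟩ : ∃ t : ℤ, t = (m : ℤ) - Q := ⟨_, rfl⟩
    have ht1 : -(g : ℤ) < t := by omega
    have ht2 : t < g := by omega
    by_cases hct : IsCoprime (a : ℤ) t
    · refine h3 t ht1 ht2 hct ?_
      rw [← hQz]
      have h4 : ((Q : ℤ) + t).natAbs = m := by omega
      rw [h4]; exact hmp
    · have hgcd : Int.gcd (a : ℤ) t ≠ 1 := fun h => hct (Int.isCoprime_iff_gcd_eq_one.2 h)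
      obtain ⟨q, hq, hqd⟩ := Nat.exists_prime_and_dvd hgcd
      have hq1 : (q : ℤ) ∣ (a : ℤ) := (Int.natCast_dvd_natCast.2 hqd).trans (Int.gcd_dvd_left _ _)
      have hq2 : (q : ℤ) ∣ t := (Int.natCast_dvd_natCast.2 hqd).trans (Int.gcd_dvd_right _ _)
      have hq3 : (q : ℤ) ∣ m := by
        have h5 : (m : ℤ) = a * n + t := by rw [ht, ← hQz]; ring
        rw [h5]
        exact dvd_add (hq1.mul_right _) hq2
      have hq4 : q ∣ m := by exact_mod_cast hq3
      have hq5 : q = m := (Nat.prime_dvd_prime_iff_eq hq hmp).1 hq4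
      have hq6 : q ≤ a := Nat.le_of_dvd ha1 (by exact_mod_cast hq1)
      omega

/-- the dichotomy at one scale -/
theorem core : ∃ C : ℕ, ∀ g : ℕ, 1 ≤ g → ∀ a : Fin 23 → ℕ, Function.Injective a →
    (∀ i, 1 ≤ a i ∧ (a i).Coprime g) → ∃ A : ℕ, 1 ≤ A ∧ ∀ᶠ x : ℝ in atTop,
    (A * x) / Real.log (A * x) ^ C ≤ (gapCount g (A * x) : ℝ) ∨
    ∃ i j, i ≠ j ∧ ∃ e ∈ ({1, -1} : Set ℤ), ∃ e' ∈ ({1, -1} : Set ℤ),
      x / Real.log x ^ C ≤ (ratioCount g (a i) (a j) e e' x : ℝ) := by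
  classical
  obtain ⟨C, htr⟩ := tr45
  refine ⟨C + 1, ?_⟩
  intro g hg a hinj ha
  set A : ℕ := ∑ i, a i with hA
  have haA : ∀ i, a i ≤ A := fun i => single_le_sum (f := a) (fun _ _ => Nat.zero_le _) (mem_univ i)
  have hA1 : 1 ≤ A := (ha 0).1.trans (haA 0)
  refine ⟨A, hA1, ?_⟩
  set I : Finset (Fin 23 × ℤ) := ((univ : Finset (Fin 23)) ×ˢ Icc (-(g : ℤ)) g).filter
    (fun y => IsCoprime (a y.1 : ℤ) y.2) with hI
  have hcop : ∀ i, IsCoprime (a i : ℤ) (g : ℤ) := fun i => Nat.isCoprime_iff_coprime.2 (ha i).2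
  have hmem1 : ∀ i, ((i, (g : ℤ)) : Fin 23 × ℤ) ∈ I := fun i => by
    rw [hI, mem_filter, mem_product, mem_Icc]
    exact ⟨⟨mem_univ _, by constructor <;> omega⟩, hcop i⟩
  have hmem2 : ∀ i, ((i, -(g : ℤ)) : Fin 23 × ℤ) ∈ I := fun i => by
    rw [hI, mem_filter, mem_product, mem_Icc]
    exact ⟨⟨mem_univ _, by constructor <;> omega⟩, (hcop i).neg_right⟩
  set aa : {y // y ∈ I} → ℤ := fun y => (a y.1.1 : ℤ) with haa
  set bb : {y // y ∈ I} → ℤ := fun y => y.1.2 with hbb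
  set S : Finset {y // y ∈ I} := (univ : Finset (Fin 23)).image (fun i => ⟨(i, (g : ℤ)), hmem1 i⟩) ∪
    (univ : Finset (Fin 23)).image (fun i => ⟨(i, -(g : ℤ)), hmem2 i⟩) with hS
  have hScard : 45 ≤ S.card := by
    rw [hS, card_union_of_disjoint, card_image_of_injective, card_image_of_injective]
    · simp
    · intro i j h
      simpa using h
    · intro i j h
      simpa using h
    · rw [disjoint_left]
      intro y hy hy'
      obtain ⟨i, _, rfl⟩ := mem_image.1 hy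
      obtain ⟨j, _, h⟩ := mem_image.1 hy'
      simp only [Subtype.mk.injEq, Prod.mk.injEq] at h
      omega
  have hSmem : ∀ y ∈ S, y.1.2 = (g : ℤ) ∨ y.1.2 = -(g : ℤ) := by
    intro y hy
    rw [hS, mem_union] at hy
    rcases hy with hy | hy
    · obtain ⟨i, _, rfl⟩ := mem_image.1 hy
      left; rfl
    · obtain ⟨i, _, rfl⟩ := mem_image.1 hy
      right; rfl
  have hpos : ∀ y, 0 < aa y := fun y => by
    simp only [haa]
    exact_mod_cast (ha y.1.1).1
  have hcopI : ∀ y : {y // y ∈ I}, IsCoprime (a y.1.1 : ℤ) y.1.2 := fun y => (mem_filter.1 y.2).2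
  have hne : ∀ y y', y ≠ y' → aa y * bb y' ≠ aa y' * bb y := by
    intro y y' hyy he
    obtain ⟨h1, h2⟩ := prim_eq (hpos y) (hpos y') (hcopI y) (hcopI y') he
    apply hyy
    apply Subtype.ext
    refine Prod.ext (hinj ?_) h2
    have h1' : (a y.1.1 : ℤ) = a y'.1.1 := h1
    exact_mod_cast h1'
  have hloc : ∀ p : ℕ, p.Prime → ∃ n : ℕ, ∀ y ∈ S, ¬ (p : ℤ) ∣ aa y * n + bb y := by
    intro p hp
    by_cases hpg : p ∣ g
    · refine ⟨1, fun y hy hd => ?_⟩
      have h1 : (p : ℤ) ∣ bb y := by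
        rcases hSmem y hy with h | h
        · simp only [hbb, h]; exact_mod_cast hpg
        · simp only [hbb, h]; exact (Int.natCast_dvd_natCast.2 hpg).neg_right
      have h2 : (p : ℤ) ∣ aa y := by
        have h3 := dvd_sub hd h1
        simpa using h3
      have h3 : p ∣ a y.1.1 := by simp only [haa] at h2; exact_mod_cast h2
      exact hp.one_lt.ne' (Nat.dvd_one.1 ((ha y.1.1).2 ▸ Nat.dvd_gcd h3 hpg))
    · refine ⟨0, fun y hy hd => hpg ?_⟩
      simp only [Nat.cast_zero, mul_zero, zero_add] at hd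
      rcases hSmem y hy with h | h
      · simp only [hbb, h] at hd; exact_mod_cast hd
      · simp only [hbb, h, dvd_neg] at hd; exact_mod_cast hd
  have hmain := htr aa bb hpos hne S hScard hloc
  have haav : ∀ y, aa y = (a y.1.1 : ℤ) := fun y => rfl
  have hbbv : ∀ y, bb y = y.1.2 := fun y => rfl
  clear_value aa bb S A
  filter_upwards [hmain, cmp A C (g + A + 2) hA1, cmp 1 C (g + A + 2) le_rfl, eventually_ge_atTop 3] with
    x hx hx1 hx2 hx3
  obtain ⟨T, hTS, hT2, hcnt⟩ := hx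
  set Z : Set ℕ := {n : ℕ | (n : ℝ) ≤ x ∧ ∀ i, (aa i * (n : ℤ) + bb i).natAbs.Prime ↔ i ∈ T} with hZ
  have hdrop := drop_small Z (g + A + 1) x (fun n hn => hn.1)
  by_cases hcase : ∃ y ∈ T, ∃ y' ∈ T, y.1.1 ≠ y'.1.1
  · right
    obtain ⟨y, hy, y', hy', hyy⟩ := hcase
    have hsign : ∀ y ∈ S, ∃ e ∈ ({1, -1} : Set ℤ), y.1.2 = e * g := by
      intro y hy
      rcases hSmem y hy with h | h
      · exact ⟨1, by simp, by rw [h]; ring⟩
      · exact ⟨-1, by simp, by rw [h]; ring⟩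
    obtain ⟨e, he, hye⟩ := hsign y (hTS hy)
    obtain ⟨e', he', hye'⟩ := hsign y' (hTS hy')
    refine ⟨y.1.1, y'.1.1, hyy, e, he, e', he', ?_⟩
    have h1 : ({n : ℕ | n ∈ Z ∧ g + A + 1 < n}.ncard : ℝ) ≤
        (ratioCount g (a y.1.1) (a y'.1.1) e e' x : ℝ) := by
      rw [Nat.cast_le]
      unfold ratioCount
      apply Set.ncard_le_ncard
      · rintro n ⟨⟨hn1, hn2⟩, hn3⟩
        have key : ∀ w ∈ T, ((a w.1.1 : ℤ) * n + w.1.2).toNat.Prime := by
          intro w hw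
          have h2 := (hn2 w).2 hw
          rw [haav, hbbv] at h2
          have h3 : (0 : ℤ) ≤ (a w.1.1 : ℤ) * n + w.1.2 := by
            have h4 : (1 : ℤ) ≤ a w.1.1 := by exact_mod_cast (ha w.1.1).1
            have h5 : -(g : ℤ) ≤ w.1.2 := by rcases hSmem w (hTS hw) with h | h <;> rw [h] <;> omega
            have h6 : (g : ℤ) + 1 ≤ n := by exact_mod_cast (by omega : g + 1 ≤ n)
            exact pos_form h4 h5 h6 (Int.natCast_nonneg g)
          have h4 : ((a w.1.1 : ℤ) * n + w.1.2).toNat = ((a w.1.1 : ℤ) * n + w.1.2).natAbs :=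
            toNat_eq h3
          rw [h4]
          exact h2
        refine ⟨hn1, ?_, ?_⟩
        · have := key y hy
          rwa [hye] at this
        · have := key y' hy'
          rwa [hye'] at this
      · exact (Set.finite_Iic ⌊x⌋₊).subset fun n hn => Nat.le_floor hn.1
    have h2 : x / Real.log x ^ (C + 1) ≤ x / Real.log x ^ C - ((g + A + 2 : ℕ) : ℝ) := by
      have h3 := hx2
      simp only [Nat.cast_one, one_mul] at h3
      exact h3
    have h3 : g + A + 1 + 1 = g + A + 2 := by omega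
    rw [h3] at hdrop
    linarith
  · left
    push Not at hcase
    obtain ⟨y, hy, y', hy', hyy⟩ := one_lt_card.1 (by omega : 1 < T.card)
    have hfst : y.1.1 = y'.1.1 := hcase y hy y' hy'
    obtain ⟨i, hi⟩ : ∃ i, i = y.1.1 := ⟨_, rfl⟩
    have hboth : (⟨(i, (g : ℤ)), hmem1 i⟩ : {y // y ∈ I}) ∈ T ∧
        (⟨(i, -(g : ℤ)), hmem2 i⟩ : {y // y ∈ I}) ∈ T := by
      rcases hSmem y (hTS hy) with h | h <;> rcases hSmem y' (hTS hy') with h' | h'
      · exact absurd (Subtype.ext (Prod.ext hfst (h.trans h'.symm))) hyy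
      · constructor
        · convert hy using 1
          exact Subtype.ext (Prod.ext hi h.symm)
        · convert hy' using 1
          exact Subtype.ext (Prod.ext (hi.trans hfst) h'.symm)
      · constructor
        · convert hy' using 1
          exact Subtype.ext (Prod.ext (hi.trans hfst) h'.symm)
        · convert hy using 1
          exact Subtype.ext (Prod.ext hi h.symm)
      · exact absurd (Subtype.ext (Prod.ext hfst (h.trans h'.symm))) hyy
    have hTonly : ∀ w ∈ T, w.1.1 = i := fun w hw => (hcase w hw y hy).trans hi.symm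
    have ha1 : 1 ≤ a i := (ha i).1
    set φ : ℕ → ℕ := fun n => a i * n - g with hφ
    have hgap : ∀ n ∈ {n : ℕ | n ∈ Z ∧ g + A + 1 < n}, φ n ∈ {p : ℕ | (p : ℝ) ≤ A * x ∧ p.Prime ∧
        (p + 2 * g).Prime ∧ ∀ m, p < m → m < p + 2 * g → ¬ m.Prime} := by
      rintro n ⟨⟨hn1, hn2⟩, hn3⟩
      have h1 := (hn2 ⟨(i, -(g : ℤ)), hmem2 i⟩).2 hboth.2
      have h2 := (hn2 ⟨(i, (g : ℤ)), hmem1 i⟩).2 hboth.1
      rw [haav, hbbv] at h1 h2
      refine ⟨le_real (haA i) hn1, gap_of ha1 (haA i) hn3 h1 h2 ?_⟩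
      intro t ht1 ht2 hct hmp
      have hmI : ((i, t) : Fin 23 × ℤ) ∈ I := by
        rw [hI, mem_filter, mem_product, mem_Icc]
        exact ⟨⟨mem_univ _, ht1.le, ht2.le⟩, hct⟩
      have h3 : (⟨(i, t), hmI⟩ : {y // y ∈ I}) ∈ T := by
        rw [← hn2, haav, hbbv]
        exact hmp
      rcases hSmem _ (hTS h3) with h4 | h4
      · exact ht2.ne h4
      · exact ht1.ne' h4
    have hinjφ : Set.InjOn φ {n : ℕ | n ∈ Z ∧ g + A + 1 < n} := by
      rintro n ⟨_, hn⟩ n' ⟨_, hn'⟩ h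
      simp only [hφ] at h
      have h1 : g ≤ a i * n := by
        have := lt_mul' ha1 hn
        omega
      have h2 : g ≤ a i * n' := by
        have := lt_mul' ha1 hn'
        omega
      have h3 : a i * n = a i * n' := by omega
      exact Nat.eq_of_mul_eq_mul_left ha1 h3
    have h1 : ({n : ℕ | n ∈ Z ∧ g + A + 1 < n}.ncard : ℝ) ≤ (gapCount g (A * x) : ℝ) := by
      rw [Nat.cast_le]
      unfold gapCount
      refine Set.ncard_le_ncard_of_injOn φ hgap hinjφ ?_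
      exact (Set.finite_Iic ⌊(A : ℝ) * x⌋₊).subset fun n hn => Nat.le_floor hn.1
    have h3 : g + A + 1 + 1 = g + A + 2 := by omega
    rw [h3] at hdrop
    linarith

end Pool.Agent.H35_PR
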