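import Mathlib
import Pool.Agent.H35_PR.Core

/-! The final form: gaps, or ratios; powers of rational numbers as ratios. -/

set_option autoImplicit false

namespace Pool.Agent.H35_PR

open Finset Filter Topology

/-- the number of the primes `p ≤ x` such that `c (p - e g) = d (q - e' g)` for some prime `q` -/
noncomputable def quotCount (g c d : ℕ) (e e' : ℤ) (x : ℝ) : ℕ :=
  {p : ℕ | (p : ℝ) ≤ x ∧ p.Prime ∧ ∃ q : ℕ, q.Prime ∧ (c : ℤ) * (p - e * g) = d * (q - e' * g)}.ncard

/-- freeze the choice -/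
theorem freeze {g C : ℕ} {a : Fin 23 → ℕ}
    (h : ∀ᶠ x : ℝ in atTop, ∃ i j, i ≠ j ∧ ∃ e ∈ ({1, -1} : Set ℤ), ∃ e' ∈ ({1, -1} : Set ℤ),
      x / Real.log x ^ C ≤ (ratioCount g (a i) (a j) e e' x : ℝ)) :
    ∃ i j, i ≠ j ∧ ∃ e ∈ ({1, -1} : Set ℤ), ∃ e' ∈ ({1, -1} : Set ℤ), ∃ᶠ x : ℝ in atTop,
      x / Real.log x ^ C ≤ (ratioCount g (a i) (a j) e e' x : ℝ) := by
  by_contra hcon
  push Not at hcon
  have h1 : ∀ i j : Fin 23, ∀ᶠ x : ℝ in atTop, i ≠ j → ∀ e ∈ ({1, -1} : Set ℤ),
      ∀ e' ∈ ({1, -1} : Set ℤ), ¬ x / Real.log x ^ C ≤ (ratioCount g (a i) (a j) e e' x : ℝ) := by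
    intro i j
    by_cases hij : i = j
    · exact Eventually.of_forall fun x h => absurd hij h
    have h2 : ∀ e ∈ ({1, -1} : Set ℤ), ∀ e' ∈ ({1, -1} : Set ℤ), ∀ᶠ x : ℝ in atTop,
        ¬ x / Real.log x ^ C ≤ (ratioCount g (a i) (a j) e e' x : ℝ) := by
      intro e he e' he'
      filter_upwards [hcon i j hij e he e' he'] with x hx
      exact not_le.2 hx
    have h3 : ∀ᶠ x : ℝ in atTop, ∀ e ∈ ({1, -1} : Finset ℤ), ∀ e' ∈ ({1, -1} : Finset ℤ),
        ¬ x / Real.log x ^ C ≤ (ratioCount g (a i) (a j) e e' x : ℝ) := by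
      rw [Filter.eventually_all_finset]
      intro e he
      rw [Filter.eventually_all_finset]
      intro e' he'
      exact h2 e (by simpa using he) e' (by simpa using he')
    filter_upwards [h3] with x hx _ e he e' he'
    exact hx e (by simpa using he) e' (by simpa using he')
  have h2 : ∀ᶠ x : ℝ in atTop, ∀ i j : Fin 23, i ≠ j → ∀ e ∈ ({1, -1} : Set ℤ),
      ∀ e' ∈ ({1, -1} : Set ℤ), ¬ x / Real.log x ^ C ≤ (ratioCount g (a i) (a j) e e' x : ℝ) := by
    rw [eventually_all]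
    intro i
    rw [eventually_all]
    exact h1 i
  obtain ⟨x, ⟨i, j, hij, e, he, e', he', hx⟩, hx2⟩ := (h.and h2).exists
  exact hx2 i j hij e he e' he' hx

/-- from the forms to the quotients -/
theorem to_quot {g C u v c d : ℕ} {e e' : ℤ} (hu : 1 ≤ u) (he : e ∈ ({1, -1} : Set ℤ))
    (hcd : c * u = d * v)
    (h : ∃ᶠ x : ℝ in atTop, x / Real.log x ^ C ≤ (ratioCount g u v e e' x : ℝ)) :
    ∃ᶠ x : ℝ in atTop, x / Real.log x ^ (C + 1) ≤ (quotCount g c d e e' x : ℝ) := by
  have htend : Tendsto (fun x : ℝ => ((u + g : ℕ) : ℝ) * x) atTop atTop := by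
    apply Tendsto.const_mul_atTop _ tendsto_id
    exact_mod_cast (by omega : 0 < u + g)
  refine htend.frequently (p := fun x : ℝ => x / Real.log x ^ (C + 1) ≤ (quotCount g c d e e' x : ℝ)) ?_
  refine (h.and_eventually ((cmp (u + g) C 0 (by omega)).and (eventually_ge_atTop 1))).mono ?_
  rintro x ⟨hx, hx2, hx1⟩
  have h1 : (ratioCount g u v e e' x : ℝ) ≤ (quotCount g c d e e' (((u + g : ℕ) : ℝ) * x) : ℝ) := by
    rw [Nat.cast_le]
    unfold ratioCount quotCount
    refine Set.ncard_le_ncard_of_injOn (fun n : ℕ => ((u : ℤ) * n + e * g).toNat) ?_ ?_ ?_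
    · rintro n ⟨hn1, hn2, hn3⟩
      have h3 : 0 ≤ (u : ℤ) * n + e * g := by
        by_contra h
        have h4 : ((u : ℤ) * n + e * g).toNat = 0 := by omega
        rw [h4] at hn2
        exact Nat.not_prime_zero hn2
      have h3' : 0 ≤ (v : ℤ) * n + e' * g := by
        by_contra h
        have h4 : ((v : ℤ) * n + e' * g).toNat = 0 := by omega
        rw [h4] at hn3
        exact Nat.not_prime_zero hn3
      have h4 : ((((u : ℤ) * n + e * g).toNat : ℕ) : ℤ) = (u : ℤ) * n + e * g := Int.toNat_of_nonneg h3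
      have h4' : ((((v : ℤ) * n + e' * g).toNat : ℕ) : ℤ) = (v : ℤ) * n + e' * g :=
        Int.toNat_of_nonneg h3'
      refine ⟨?_, hn2, _, hn3, ?_⟩
      · have h5 : ((((u : ℤ) * n + e * g).toNat : ℕ) : ℝ) = (u : ℝ) * n + e * g := by
          exact_mod_cast congrArg (fun z : ℤ => (z : ℝ)) h4
        show ((((u : ℤ) * n + e * g).toNat : ℕ) : ℝ) ≤ _
        rw [h5]
        have h6 : (e : ℝ) * g ≤ g := by
          rcases he with h | h
          · rw [h]; simp
          · rw [Set.mem_singleton_iff] at h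
            rw [h]
            push_cast
            have : (0 : ℝ) ≤ g := by positivity
            linarith
        have h7 : (u : ℝ) * n ≤ u * x := mul_le_mul_of_nonneg_left hn1 (by positivity)
        have h8 : (g : ℝ) ≤ g * x := le_mul_of_one_le_right (by positivity) hx1
        push_cast
        linarith
      · rw [h4, h4']
        have h9 : (c : ℤ) * u = d * v := by exact_mod_cast hcd
        linear_combination (n : ℤ) * h9
    · rintro n ⟨_, hn2, _⟩ n' ⟨_, hn2', _⟩ hnn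
      have h3 : 0 ≤ (u : ℤ) * n + e * g := by
        by_contra h
        have h4 : ((u : ℤ) * n + e * g).toNat = 0 := by omega
        rw [h4] at hn2
        exact Nat.not_prime_zero hn2
      have h3' : 0 ≤ (u : ℤ) * n' + e * g := by
        by_contra h
        have h4 : ((u : ℤ) * n' + e * g).toNat = 0 := by omega
        rw [h4] at hn2'
        exact Nat.not_prime_zero hn2'
      simp only at hnn
      have h4 : (u : ℤ) * n + e * g = (u : ℤ) * n' + e * g := by
        rw [← Int.toNat_of_nonneg h3, ← Int.toNat_of_nonneg h3', hnn]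
      have h5 : (u : ℤ) * n = (u : ℤ) * n' := by linarith
      have h6 : u * n = u * n' := by exact_mod_cast h5
      exact Nat.eq_of_mul_eq_mul_left hu h6
    · exact (Set.finite_Iic ⌊((u + g : ℕ) : ℝ) * x⌋₊).subset fun n hn => Nat.le_floor hn.1
  simp only [Nat.cast_zero, sub_zero] at hx2
  exact (hx2.trans hx).trans h1

theorem main : ∃ B : ℕ, ∀ g : ℕ, 1 ≤ g →
    (∃ᶠ x : ℝ in atTop, x / Real.log x ^ B ≤ (gapCount g x : ℝ)) ∨
    ((∀ a : Fin 23 → ℕ, Function.Injective a → (∀ i, 1 ≤ a i ∧ (a i).Coprime g) →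
        ∀ᶠ x : ℝ in atTop, ∃ i j, i ≠ j ∧ ∃ e ∈ ({1, -1} : Set ℤ), ∃ e' ∈ ({1, -1} : Set ℤ),
          x / Real.log x ^ B ≤ (ratioCount g (a i) (a j) e e' x : ℝ)) ∧
      ∀ c d : ℕ, 1 ≤ c → 1 ≤ d → c ≠ d → c.Coprime g → d.Coprime g →
        ∃ k, 1 ≤ k ∧ k ≤ 22 ∧ ∃ e ∈ ({1, -1} : Set ℤ), ∃ e' ∈ ({1, -1} : Set ℤ),
          ∃ᶠ x : ℝ in atTop, x / Real.log x ^ B ≤ (quotCount g (c ^ k) (d ^ k) e e' x : ℝ)) := by
  obtain ⟨C, hC⟩ := core
  refine ⟨C + 1, fun g hg => ?_⟩
  have hmono : ∀ᶠ x : ℝ in atTop, x / Real.log x ^ (C + 1) ≤ x / Real.log x ^ C := by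
    filter_upwards [cmp 1 C 0 le_rfl] with x hx
    simpa using hx
  by_cases hA : ∃ᶠ x : ℝ in atTop, x / Real.log x ^ (C + 1) ≤ (gapCount g x : ℝ)
  · exact Or.inl hA
  right
  rw [Filter.not_frequently] at hA
  have hB : ∀ a : Fin 23 → ℕ, Function.Injective a → (∀ i, 1 ≤ a i ∧ (a i).Coprime g) →
      ∀ᶠ x : ℝ in atTop, ∃ i j, i ≠ j ∧ ∃ e ∈ ({1, -1} : Set ℤ), ∃ e' ∈ ({1, -1} : Set ℤ),
        x / Real.log x ^ C ≤ (ratioCount g (a i) (a j) e e' x : ℝ) := by
    intro a hinj ha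
    obtain ⟨A, hA1, h⟩ := hC g hg a hinj ha
    have htend : Tendsto (fun x : ℝ => (A : ℝ) * x) atTop atTop := by
      apply Tendsto.const_mul_atTop _ tendsto_id
      exact_mod_cast (by omega : 0 < A)
    filter_upwards [h, htend.eventually hA, htend.eventually hmono] with x hx hx2 hx3
    rcases hx with hx | hx
    · exact absurd (hx3.trans hx) hx2
    · exact hx
  constructor
  · intro a hinj ha
    filter_upwards [hB a hinj ha, hmono] with x hx hx2
    obtain ⟨i, j, hij, e, he, e', he', h⟩ := hx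
    exact ⟨i, j, hij, e, he, e', he', hx2.trans h⟩
  · intro c d hc hd hcd hcg hdg
    set a : Fin 23 → ℕ := fun i => c ^ (i : ℕ) * d ^ (22 - (i : ℕ)) with ha
    have hinj : Function.Injective a := by
      have key : ∀ i j : Fin 23, i < j → a i ≠ a j := by
        intro i j hij h
        have h1 : (i : ℕ) < j := hij
        have h2 : (j : ℕ) ≤ 22 := by omega
        simp only [ha] at h
        have e1 : d ^ (22 - (i : ℕ)) = d ^ (22 - (j : ℕ)) * d ^ ((j : ℕ) - i) := by
          rw [← pow_add]; congr 1; omega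
        have e2 : c ^ (j : ℕ) = c ^ (i : ℕ) * c ^ ((j : ℕ) - i) := by
          rw [← pow_add]; congr 1; omega
        rw [e1, e2] at h
        have h3 : (c ^ (i : ℕ) * d ^ (22 - (j : ℕ))) * d ^ ((j : ℕ) - i) =
            (c ^ (i : ℕ) * d ^ (22 - (j : ℕ))) * c ^ ((j : ℕ) - i) := by
          calc _ = c ^ (i : ℕ) * (d ^ (22 - (j : ℕ)) * d ^ ((j : ℕ) - i)) := by ring
            _ = c ^ (i : ℕ) * c ^ ((j : ℕ) - i) * d ^ (22 - (j : ℕ)) := h
            _ = _ := by ring
        have h4 : d ^ ((j : ℕ) - i) = c ^ ((j : ℕ) - i) :=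
          Nat.eq_of_mul_eq_mul_left (by positivity) h3
        exact hcd ((Nat.pow_left_injective (by omega : (j : ℕ) - i ≠ 0)) h4).symm
      intro i j h
      rcases lt_trichotomy i j with h1 | h1 | h1
      · exact absurd h (key i j h1)
      · exact h1
      · exact absurd h.symm (key j i h1)
    have hcop : ∀ i, 1 ≤ a i ∧ (a i).Coprime g := by
      intro i
      refine ⟨?_, ?_⟩
      · simp only [ha]
        exact Nat.one_le_iff_ne_zero.2 (by positivity)
      · simp only [ha]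
        exact Nat.Coprime.mul_left (hcg.pow_left _) (hdg.pow_left _)
    obtain ⟨i, j, hij, e, he, e', he', hfr⟩ := freeze (hB a hinj hcop)
    have hi := i.2
    have hj := j.2
    rcases lt_or_gt_of_ne (fun h => hij (Fin.ext h) : (i : ℕ) ≠ j) with h | h
    · refine ⟨(j : ℕ) - i, by omega, by omega, e, he, e', he', ?_⟩
      refine to_quot (hcop i).1 he ?_ hfr
      simp only [ha]
      have e1 : d ^ (22 - (i : ℕ)) = d ^ ((j : ℕ) - i) * d ^ (22 - (j : ℕ)) := by
        rw [← pow_add]; congr 1; omega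
      have e2 : c ^ (j : ℕ) = c ^ ((j : ℕ) - i) * c ^ (i : ℕ) := by
        rw [← pow_add]; congr 1; omega
      rw [e1, e2]; ring
    · refine ⟨(i : ℕ) - j, by omega, by omega, e', he', e, he, ?_⟩
      have hfr' : ∃ᶠ x : ℝ in atTop, x / Real.log x ^ C ≤ (ratioCount g (a j) (a i) e' e x : ℝ) := by
        refine hfr.mono fun x hx => hx.trans (le_of_eq ?_)
        unfold ratioCount
        congr 2
        ext n
        simp only [Set.mem_ofPred_eq]
        tauto
      refine to_quot (hcop j).1 he' ?_ hfr'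
      simp only [ha]
      have e1 : d ^ (22 - (j : ℕ)) = d ^ ((i : ℕ) - j) * d ^ (22 - (i : ℕ)) := by
        rw [← pow_add]; congr 1; omega
      have e2 : c ^ (i : ℕ) = c ^ ((i : ℕ) - j) * c ^ (j : ℕ) := by
        rw [← pow_add]; congr 1; omega
      rw [e1, e2]; ring

end Pool.Agent.H35_PR
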